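import Pool.Agent.H90.RdvNew2

namespace Pool.Agent.Results.MP_7e9b7a_co.NotOptimal

open MeasureTheory Pool.Agent.H90.Rdv

/-- The Anderson-Weber strategy needs at least `0.82885 n` steps on average for every `θ`, while
for every large odd `n` some symmetric strategy needs at most `0.8288 n`. -/
theorem result :
    (∀ (n : ℕ) (hn : 0 < n), 100000 ≤ n → ∀ θ ∈ Set.Icc (0 : ℝ) 1,
      ENNReal.ofReal (0.82885 * n) ≤ expTime (AW hn θ)) ∧
    ∀ n : ℕ, Odd n → 200000001 ≤ n → ∃ D : Measure (ℕ → Fin n),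
      IsProbabilityMeasure D ∧ expTime D ≤ ENNReal.ofReal (0.8288 * n) := by
  refine ⟨fun n hn hN θ hθ => aw_lower hn hN θ hθ.1 hθ.2, ?_⟩
  rintro n ⟨h, rfl⟩ hN
  have hh : 100000000 ≤ h := by omega
  have : NeZero h := ⟨by omega⟩
  have := law_prob (nP h) nB (fun ω => by unfold nP; positivity) nP_sum
  refine ⟨_, block_prob (show 0 < 6 * h by omega) (law (nP h) nB), ?_⟩
  simpa using new_upper hh

end Pool.Agent.Results.MP_7e9b7a_co.NotOptimal
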